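import Mathlib
import Pool.Agent.Results.MP_6ba1da_al.NotLinear
import Pool.Agent.Y134.LP.Para

namespace Pool.Agent.Results.MP_6ba1da_al.PrescribedFactors

open NotLinear Cardinal

universe u v

/-- The group `G` has no faithful representation over a commutative ring: for every commutative ring
`R`, there is no injective homomorphism from `G` to `GL n R`, for any `n`, and no injective
homomorphism from `G` to the group of the automorphisms of a finitely generated `R`-module. -/
structure NotRepresentable (G : Type u) [Group G] : Prop where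
  matrices : ∀ (R : Type v) [CommRing R] (n : ℕ) (f : G →* Matrix.GeneralLinearGroup (Fin n) R),
    ¬ Function.Injective f
  modules : ∀ (R : Type v) [CommRing R] (M : Type v) [AddCommGroup M] [Module R M]
    [Module.Finite R M] (f : G →* (Module.End R M)ˣ), ¬ Function.Injective f

lemma notRepresentable_of {G : Type u} [Group G] (h : Y134.LP.NoRep.{v, v} G) :
    NotRepresentable.{u, v} G := by
  refine ⟨fun R _ n f hf => ?_, h⟩
  refine h R (Fin n → R) ((Matrix.GeneralLinearGroup.toLin (n := Fin n) (R := R)).toMonoidHom.comp f)
    ?_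
  exact (Matrix.GeneralLinearGroup.toLin (n := Fin n) (R := R)).injective.comp hf

/-- (1) There is a countable group `H` that has no faithful representation over a commutative ring
and has the following property. For every infinite set `X` and every residually nilpotent group `K`
with at most `#X` elements whose lower central factors are free abelian, the product of the free
group on `X`, of `K` and of `H` is para-free, with the lower central factors of the free group on
`X`, and has no faithful representation over a commutative ring.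

(2) For every infinite cardinal `κ` there is a para-free group of cardinality `κ` that has no
faithful representation over a commutative ring. -/
theorem result :
    (∃ (H : Type) (_ : Group H), Countable H ∧ NotRepresentable.{0, v} H ∧
      ∀ (X : Type u) [Infinite X] (K : Type u) [Group K], #K ≤ #X →
        ⨅ i : ℕ, (⊤ : Subgroup K).lowerCentralSeries i = ⊥ →
        (∀ i : ℕ, ∃ Y : Type u, Nonempty (Factor K i ≃* Multiplicative (Y →₀ ℤ))) →
          (∀ i : ℕ, Nonempty (Factor (FreeGroup X × K × H) i ≃* Factor (FreeGroup X) i)) ∧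
          ParaFree (FreeGroup X × K × H) ∧
          NotRepresentable.{u, v} (FreeGroup X × K × H)) ∧
    ∀ κ : Cardinal.{u}, ℵ₀ ≤ κ → ∃ (G : Type u) (_ : Group G), #G = κ ∧ ParaFree G ∧
      NotRepresentable.{u, v} G := by
  have main : ∀ (X : Type u) [Infinite X] (K : Type u) [Group K], #K ≤ #X →
      ⨅ i : ℕ, (⊤ : Subgroup K).lowerCentralSeries i = ⊥ →
      (∀ i : ℕ, ∃ Y : Type u, Nonempty (Factor K i ≃* Multiplicative (Y →₀ ℤ))) →
        (∀ i : ℕ, Nonempty (Factor (FreeGroup X × K × Helper39.ParaFree.H) i
          ≃* Factor (FreeGroup X) i)) ∧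
        ParaFree (FreeGroup X × K × Helper39.ParaFree.H) ∧
        NotRepresentable.{u, v} (FreeGroup X × K × Helper39.ParaFree.H) := by
    intro X _ K _ hc hK hf
    obtain ⟨h1, h2⟩ := Y134.LP.para hc hK hf
    refine ⟨h1, ⟨⟨X, h1⟩, h2⟩, notRepresentable_of ?_⟩
    refine Y134.LP.noRep_H.mono
      ((MonoidHom.inr (FreeGroup X) (K × Helper39.ParaFree.H)).comp
        (MonoidHom.inr K Helper39.ParaFree.H)) ?_
    intro a b h
    exact (Prod.mk.inj (Prod.mk.inj h).2).2
  refine ⟨⟨Helper39.ParaFree.H, inferInstance, Helper39.ParaFree.countable_H,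
    notRepresentable_of Y134.LP.noRep_H, main⟩, fun κ hκ => ?_⟩
  have hinf : Infinite κ.out := by
    rw [infinite_iff, mk_out]
    exact hκ
  have hcard : #PUnit.{u + 1} ≤ #κ.out := by
    rw [mk_punit, mk_out]
    exact (one_le_aleph0).trans hκ
  obtain ⟨-, h2, h3⟩ := main κ.out PUnit.{u + 1} hcard (by
    rw [eq_bot_iff]
    intro x _
    exact Subgroup.mem_bot.2 (Subsingleton.elim _ _)) Y134.LP.fac_punit
  refine ⟨FreeGroup κ.out × PUnit.{u + 1} × Helper39.ParaFree.H, inferInstance, ?_, h2, h3⟩
  have h4 : #(PUnit.{u + 1} × Helper39.ParaFree.H) ≤ κ := by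
    have := Y134.LP.card_prod_H (X := κ.out) (K := PUnit.{u + 1}) hcard
    rwa [mk_out] at this
  have h5 : #(FreeGroup κ.out) = κ := by
    rw [mk_freeGroup, mk_out, max_eq_left hκ]
  have h6 : #(PUnit.{u + 1} × Helper39.ParaFree.H) ≠ 0 := mk_ne_zero _
  have h7 : #(FreeGroup κ.out × (PUnit.{u + 1} × Helper39.ParaFree.H))
      = #(FreeGroup κ.out) * #(PUnit.{u + 1} × Helper39.ParaFree.H) := by
    rw [mk_prod, lift_id, lift_id]
  rw [h7, h5]
  exact mul_eq_left hκ h4 h6

end Pool.Agent.Results.MP_6ba1da_al.PrescribedFactors
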